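import Mathlib
import Pool.Agent.Run7.h707.TG.FinSt

/-!
# Curves of any rank: the rank, the order of `L` at `1` and the finiteness of `Ш[3^∞]` are the same over a
fixed field and over an exact positive proportion of its `(ℤ/3)^r`-extensions

`K = ℚ(√-3)`.  Let `c` and `b_1, …, b_s` (`s ≥ 0`) be fixed cube-free elements of `𝓞 K` that are congruent to
third roots of unity modulo `3` (every element prime to `3` is such an element times a cube), the `b_i`
independent modulo cubes, and let `F₀ = K(∛b_1, …, ∛b_s)` and `E_c : y² + c y = x³`.  We suppose only that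
`c` is not a unit of `K` times a cube in `F₀`.  There is NO condition on the rank or on `Ш` of `E_c`: for
instance `c = 7` is allowed, and `E_7 : x³ + y³ = 7 z³` has rank `1` over `ℚ` and rank `2` over `K`.

For `r ≥ 1` let `a = (a_1, …, a_r)` run through ALL the `r`-tuples of elements of the same type, ordered by
the maximum of the norms, and let `F = F₀(∛a_1, …, ∛a_r)`.  A tuple is in the family if for all `μ` and
all `ν ≠ 0` the element `c b^μ a^ν` is not exceptional (a unit times a cube, or `1` modulo `3` with a norm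
that is `1` modulo `9`) and `b^μ a^ν` is not a unit times a cube.

* The family has among ALL the tuples an exact density `κ`, which is positive as soon as it is not empty.
  If no `c b^μ` is exceptional, then `κ = (3^(r+1) - 2) / 9^r` if all the `b_i` are `1` modulo `3` with norms
  `1` modulo `9` (that is, `F₀ / K` is unramified at `√-3`), and `κ = 1 / 3^r` otherwise.
* The tuples of the family such that all the groups `E_{c b^μ a^ν}(K)`, `ν ≠ 0`, are finite and all the
  groups `Ш(E_{c b^μ a^ν} / K)[3^∞]` trivial have, among ALL the tuples, exactly the density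
  `κ c₉^(3^s (3^r - 1))`, `c₉ = ∏_{i ≥ 0} (1 - 3^{-(2 i + 1)}) > 0.639`.
* For all these tuples: `[F : F₀] = 3^r`; `L(E_c / F₀, s)` and `L(E_c / F, s)` have entire continuations
  with the SAME order of vanishing at `s = 1`; `E_c(F)` has the same rank as `E_c(F₀)`; and if `3^m` kills
  `Ш(E_c / F₀)[3^∞]`, then `3^(max(s, m) + r)` kills `Ш(E_c / F)[3^∞]`.

In particular the rank conjecture for `E_c` over `F` holds if and only if it holds for `E_c` over `F₀`.  So every
case of the conjecture over `F₀` (of any rank) gives cases of the same rank over an exact positive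
proportion of all the extensions of `F₀` of this type; with the theorems of Gross-Zagier and Kolyvagin
one gets the conjecture with rank `2` for a positive proportion of all the `(ℤ/3)^r`-extensions
`K(∛a_1, …, ∛a_r)`, for every `c ∈ ℤ` as above such that `L(E_c / ℚ, s)` has a simple zero at `1`.

`L(E_c / F, s)` is Mathlib's `L`-series of a Weierstrass curve over a number field.

Proof: the law is the one of `TF/FixX.lean` for the twists by products of fixed and free elements (the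
headers of the files `Pool/Agent/Run7/h707/{TC,TD,TE,TF}/*.lean`).  The new part is in `TG`: the sum over the
twists of the traces shows that `3^r P` is, for a point `P` of `E_c(F)`, a sum of points that come from
the curves `E_{c a^ν}(F₀)`, which are finite for `ν ≠ 0` (the same for cocycles); the `a_k` stay independent
modulo cubes over `F₀` (Kummer theory), so that the Euler product over `F` is the product of the ones of
the twists over `F₀`.  The continuation for the exceptional `c b^μ` is theorem `an1b` of the pool.  The criterion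
for the nonvanishing of `L(E_δ / K, 1)`, the descent and the large sieve are the joint work of the seats named
in the headers of the imported files.
-/

set_option autoImplicit false

namespace Pool.Agent.Results.MP_32c55d_nt.RankStability

open NumberField WeierstrassCurve
open Pool.Agent.TH841.NF.D (Sha)
open scoped Classical

/-- The curve `E_δ : y² + δ y = x³`. -/
def curve {F : Type} [Field F] (δ : F) : WeierstrassCurve F := ⟨0, 0, δ, 0, 0⟩

variable {K : Type} [Field K] [NumberField K]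

/-- `b^μ = ∏ b i ^ μ i`, the exponents in `{0, 1, 2}`. -/
noncomputable def power {s : ℕ} (b : Fin s → 𝓞 K) (μ : Fin s → ZMod 3) : 𝓞 K :=
  ∏ i, b i ^ (μ i).val

/-- The `b i` are independent modulo cubes: no `b^μ`, `μ ≠ 0`, is a cube. -/
def Independent {s : ℕ} (b : Fin s → 𝓞 K) : Prop :=
  ∀ μ : Fin s → ZMod 3, μ ≠ 0 → ∀ y : 𝓞 K, y ^ 3 ≠ power b μ

/-- `F₀` is generated over `K` by the cube roots `η i` of the `b i`. -/
def IsBase {s : ℕ} (b : Fin s → 𝓞 K) (F₀ : Type) [Field F₀] [Algebra K F₀] (η : Fin s → F₀) : Prop :=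
  (∀ i, η i ^ 3 = algebraMap K F₀ (b i)) ∧
    ∀ S : Subfield F₀, (∀ x : K, algebraMap K F₀ x ∈ S) → (∀ i, η i ∈ S) → S = ⊤

/-- `F` is generated over `F₀` by the cube roots `θ k` of the `a k`. -/
def IsExtension {r : ℕ} (a : Fin r → 𝓞 K) (F₀ F : Type) [Field F₀] [Field F] [Algebra K F]
    [Algebra F₀ F] (θ : Fin r → F) : Prop :=
  (∀ k, θ k ^ 3 = algebraMap K F (a k)) ∧
    ∀ S : Subfield F, (∀ x : F₀, algebraMap F₀ F x ∈ S) → (∀ k, θ k ∈ S) → S = ⊤

/-- `a` is cube-free and congruent to a third root of unity modulo `3`. -/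
def Admissible (a : 𝓞 K) : Prop :=
  (∀ x : 𝓞 K, x ^ 3 ∣ a → IsUnit x) ∧ ∃ ω : 𝓞 K, ω ^ 3 = 1 ∧ (3 : 𝓞 K) ∣ a - ω

/-- `δ` is a unit times a cube. -/
def UnitTimesCube (δ : 𝓞 K) : Prop := ∃ u x : 𝓞 K, IsUnit u ∧ δ = u * x ^ 3

/-- `δ` is `1` modulo `3` and its norm is `1` modulo `9`. -/
def IsOne (δ : 𝓞 K) : Prop := (3 : 𝓞 K) ∣ δ - 1 ∧ (9 : ℤ) ∣ Algebra.norm ℤ δ - 1

/-- `δ` is a unit times a cube, or `1` modulo `3` with a norm that is `1` modulo `9`. -/
def Exceptional (δ : 𝓞 K) : Prop :=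
  (∃ u x : 𝓞 K, IsUnit u ∧ δ = u * x ^ 3) ∨
    ((3 : 𝓞 K) ∣ δ - 1 ∧ (9 : ℤ) ∣ Algebra.norm ℤ δ - 1)

/-- For `ν ≠ 0` no `c b^μ a^ν` is exceptional and no `b^μ a^ν` is a unit times a cube. -/
def InFamily {s r : ℕ} (c : 𝓞 K) (b : Fin s → 𝓞 K) (a : Fin r → 𝓞 K) : Prop :=
  (∀ (μ : Fin s → ZMod 3) (ν : Fin r → ZMod 3), ν ≠ 0 →
    ¬ Exceptional (c * power b μ * power a ν)) ∧
  ∀ (μ : Fin s → ZMod 3) (ν : Fin r → ZMod 3), ν ≠ 0 → ¬ UnitTimesCube (power b μ * power a ν)

/-- `E_δ(K)` is finite and the `3`-primary part of `Ш(E_δ / K)` is trivial. -/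
def FiniteAndTrivial (δ : 𝓞 K) : Prop :=
  Finite (curve (δ : K)).toAffine.Point ∧ ∀ (n : ℕ) (x : Sha (curve (δ : K))), 3 ^ n • x = 0 → x = 0

/-- The new twists: for `ν ≠ 0` all the `E_{c b^μ a^ν}(K)` are finite and the
`Ш(E_{c b^μ a^ν} / K)[3^∞]` trivial. -/
def NewTrivial {s r : ℕ} (c : 𝓞 K) (b : Fin s → 𝓞 K) (a : Fin r → 𝓞 K) : Prop :=
  ∀ (μ : Fin s → ZMod 3) (ν : Fin r → ZMod 3), ν ≠ 0 →
    FiniteAndTrivial (c * power b μ * power a ν)

/-- Nine representatives of the classes: `ω (1 + 3 m)`, `ω³ = 1`, `m = 0, 1, 2`. -/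
def nine (K : Type) [Field K] : Set (𝓞 K) :=
  {x | ∃ (ω : 𝓞 K) (m : ℕ), ω ^ 3 = 1 ∧ m < 3 ∧ x = ω * (1 + 3 * m)}

/-- The density of the family: the proportion of the tuples of representatives such that for `ν ≠ 0` no
`c b^μ a^ν` is `1` modulo `3` with a norm that is `1` modulo `9`. -/
noncomputable def kappa {s : ℕ} (c : 𝓞 K) (b : Fin s → 𝓞 K) (r : ℕ) : ℝ :=
  ({u : Fin r → 𝓞 K | (∀ k, u k ∈ nine K) ∧ ∀ (μ : Fin s → ZMod 3) (ν : Fin r → ZMod 3), ν ≠ 0 →
    ¬ IsOne (c * power b μ * power u ν)}.ncard : ℝ) / 9 ^ r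

/-- The number of the admissible tuples `a` of norm at most `X` with the property `P`. -/
noncomputable def number {r : ℕ} (X : ℕ) (P : (Fin r → 𝓞 K) → Prop) : ℝ :=
  ({a : Fin r → 𝓞 K | (∀ k, Algebra.norm ℤ (a k) ≤ X ∧ Admissible (a k)) ∧ P a}.ncard : ℝ)

/-- The property `P` has the density `d` among all the admissible tuples. -/
def HasDensity {r : ℕ} (P : (Fin r → 𝓞 K) → Prop) (d : ℝ) : Prop :=
  Filter.Tendsto (fun X : ℕ => number X P / number X (fun _ : Fin r → 𝓞 K => True)) Filter.atTop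
    (nhds d)

/-- `Λ` is entire and equal to `L(E_c / F, s)` for `Re s > 3 / 2`. -/
def Continues (F : Type) [Field F] [NumberField F] [Algebra K F] (c : 𝓞 K) (Λ : ℂ → ℂ) : Prop :=
  Differentiable ℂ Λ ∧ ∀ s : ℂ, 3 / 2 < s.re → Λ s = (curve (algebraMap K F c)).LSeries s

/-- The rank part of the conjecture for `E_c` over `F`: the order of vanishing of `Λ` at `1` is the rank of
`E_c(F)`. -/
def RankFormula (F : Type) [Field F] [NumberField F] [Algebra K F] (c : 𝓞 K) (Λ : ℂ → ℂ) : Prop :=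
  analyticOrderAt Λ 1 = (Module.finrank ℤ (curve (algebraMap K F c)).toAffine.Point : ℕ∞)

/-- The `3`-primary part of `Ш(E_c / F)` is killed by `3^m`. -/
def ShaKilled (F : Type) [Field F] [NumberField F] [Algebra K F] (m : ℕ) (c : 𝓞 K) : Prop :=
  ∀ (n : ℕ) (x : Sha (curve (algebraMap K F c))), 3 ^ n • x = 0 → 3 ^ m • x = 0

/-- From `F₀` to `F`, for the continuations `Λ₀` and `Λ` of `L(E_c / F₀, s)` and `L(E_c / F, s)`: the same order
at `1`, the same rank (as cardinals), the rank formula over `F` if and only if over `F₀`, and if `3^m` kills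
`Ш(E_c / F₀)[3^∞]`, then `3^(max(s, m) + r)` kills `Ш(E_c / F)[3^∞]`. -/
def Stable (s r : ℕ) (c : 𝓞 K) (F₀ F : Type) [Field F₀] [NumberField F₀] [Algebra K F₀] [Field F]
    [NumberField F] [Algebra K F] (Λ₀ Λ : ℂ → ℂ) : Prop :=
  analyticOrderAt Λ 1 = analyticOrderAt Λ₀ 1 ∧
    Module.rank ℤ (curve (algebraMap K F c)).toAffine.Point =
      Module.rank ℤ (curve (algebraMap K F₀ c)).toAffine.Point ∧
    (RankFormula F c Λ ↔ RankFormula F₀ c Λ₀) ∧
    ∀ m : ℕ, ShaKilled F₀ m c → ShaKilled F (max s m + r) c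

/-- **Main theorem.** -/
theorem result (K : Type) [Field K] [NumberField K] [IsCyclotomicExtension {3} ℚ K] :
    (0.639 : ℝ) < ∏' i : ℕ, (1 - (1 / 3 : ℝ) ^ (2 * i + 1)) ∧
    ∀ (s : ℕ) (b : Fin s → 𝓞 K) (c : 𝓞 K), Admissible c → (∀ i, Admissible (b i)) →
      Independent b → (∀ μ : Fin s → ZMod 3, ¬ UnitTimesCube (c * power b μ)) → ∀ r : ℕ,
      ((∀ μ : Fin s → ZMod 3, ¬ Exceptional (c * power b μ)) →
        kappa c b r = if ∀ i, IsOne (b i) then (3 ^ (r + 1) - 2) / 9 ^ r else 1 / 3 ^ r) ∧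
      ((∃ a : Fin r → 𝓞 K, (∀ k, Admissible (a k)) ∧ InFamily c b a) → 0 < kappa c b r) ∧
      (∃ C : ℝ, 0 < C ∧ ∃ X₀ : ℕ, ∀ X : ℕ, X₀ ≤ X →
        C * (X : ℝ) ^ r ≤ number X (fun _ : Fin r → 𝓞 K => True)) ∧
      HasDensity (fun a : Fin r → 𝓞 K => InFamily c b a) (kappa c b r) ∧
      HasDensity (fun a : Fin r → 𝓞 K => InFamily c b a ∧ NewTrivial c b a)
        (kappa c b r * (∏' i : ℕ, (1 - (1 / 3 : ℝ) ^ (2 * i + 1))) ^ (3 ^ s * (3 ^ r - 1))) ∧
      ∀ a : Fin r → 𝓞 K, (∀ k, Admissible (a k)) → InFamily c b a →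
        (∃ (F₀ : Type) (_ : Field F₀) (_ : NumberField F₀) (_ : Algebra K F₀) (η : Fin s → F₀),
          IsBase b F₀ η) ∧
        ∀ (F₀ : Type) [Field F₀] [NumberField F₀] [Algebra K F₀] (η : Fin s → F₀),
          IsBase b F₀ η → Module.finrank K F₀ = 3 ^ s ∧
          (∃ (F : Type) (_ : Field F) (_ : NumberField F) (_ : Algebra K F) (_ : Algebra F₀ F)
            (_ : IsScalarTower K F₀ F) (θ : Fin r → F), IsExtension a F₀ F θ) ∧
          ∀ (F : Type) [Field F] [NumberField F] [Algebra K F] [Algebra F₀ F]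
            [IsScalarTower K F₀ F] (θ : Fin r → F), IsExtension a F₀ F θ →
            Module.finrank F₀ F = 3 ^ r ∧
            ∃ Λ₀ Λ : ℂ → ℂ, Continues F₀ c Λ₀ ∧ Continues F c Λ ∧
              (NewTrivial c b a → Stable s r c F₀ F Λ₀ Λ) := by
  have e : ∀ (r X : ℕ), number X (fun _ : Fin r → 𝓞 K => True) =
      ({a : Fin r → 𝓞 K | ∀ k, Algebra.norm ℤ (a k) ≤ X ∧ Admissible (a k)}.ncard : ℝ) := by
    intro r X
    unfold number
    simp only [and_true]
  refine ⟨Pool.Agent.XLK.t_C9.2.2.2.1, fun s b c hc hb hind hU r => ?_⟩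
  obtain ⟨h1, h2, h3, h4, h5, h6⟩ := Run7.h707.TG.finSt K r (c := c) hc (d := b) hb hind hU
  have hk : kappa c b r = Run7.h707.TF.kapX (fun _ : Unit => c) b r := by
    have h : {u : Fin r → 𝓞 K | (∀ k, u k ∈ nine K) ∧ ∀ (μ : Fin s → ZMod 3) (ν : Fin r → ZMod 3),
        ν ≠ 0 → ¬ IsOne (c * power b μ * power u ν)} = {u : Fin r → 𝓞 K |
        (∀ k, u k ∈ Run7.h707.TF.reps K) ∧ ∀ (t : Unit) (μ : Fin s → ZMod 3)
        (ν : Fin r → ZMod 3), ν ≠ 0 → ¬ Run7.h707.TF.Nm1 ((fun _ : Unit => c) t *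
          Run7.h707.TE.bp b μ * Run7.h707.TE.bp u ν)} := by
      ext u
      exact ⟨fun h => ⟨h.1, fun _ => h.2⟩, fun h => ⟨h.1, h.2 ()⟩⟩
    unfold kappa Run7.h707.TF.kapX
    rw [h]
  rw [← hk] at h1 h2 h4 h5
  refine ⟨h1, ?_, ?_, ?_, ?_, fun a ha hF => ⟨?_, fun F₀ _ _ _ η hη => ?_⟩⟩
  · rintro ⟨a, ha, haF⟩
    exact h2 ⟨a, ha, haF.1⟩
  · simp only [e]
    exact h3
  · unfold HasDensity
    simp only [e]
    exact h4
  · unfold HasDensity
    simp only [e]
    exact h5
  · obtain ⟨F, i1, i2, i3, θ, hθ, hg⟩ := Run7.h707.TE.ex_F fun i => (b i : K)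
    exact ⟨F, i1, i2, i3, θ, hθ, hg⟩
  · have hex : ∃ (F : Type) (_ : Field F) (_ : NumberField F) (_ : Algebra K F) (_ : Algebra F₀ F)
        (_ : IsScalarTower K F₀ F) (θ : Fin r → F), IsExtension a F₀ F θ := by
      obtain ⟨F, i1, i2, i3, θ, hθ, hg⟩ := Run7.h707.TE.ex_F fun k => algebraMap K F₀ (a k : K)
      let i4 : Algebra K F := ((algebraMap F₀ F).comp (algebraMap K F₀)).toAlgebra
      have i5 : IsScalarTower K F₀ F := IsScalarTower.of_algebraMap_eq fun x => rfl
      exact ⟨F, i1, i2, i4, i3, i5, θ, hθ, hg⟩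
    have hall := h6 a ha hF.1 hF.2 F₀ η hη
    have hfr : Module.finrank K F₀ = 3 ^ s := by
      obtain ⟨F, i1, i2, i3, i4, i5, θ, hθ⟩ := hex
      exact (hall F θ hθ).1
    refine ⟨hfr, hex, fun F _ _ _ _ _ θ hθ => ?_⟩
    obtain ⟨-, hd, L₀, L₁, l1, l2, l3, l4, l5⟩ := hall F θ hθ
    refine ⟨hd, L₀, L₀ * L₁, ⟨l1, l3⟩, ⟨l1.mul l2, fun s hs => l4 s hs⟩, fun hN => ?_⟩
    obtain ⟨h7, h8, h9⟩ := l5 hN
    have ho : analyticOrderAt (L₀ * L₁) 1 = analyticOrderAt L₀ 1 := by
      rw [analyticOrderAt_mul (l1.analyticAt 1) (l2.analyticAt 1),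
        analyticOrderAt_eq_zero.2 (Or.inr h7), add_zero]
    have hr : Module.finrank ℤ (curve (algebraMap K F c)).toAffine.Point =
        Module.finrank ℤ (curve (algebraMap K F₀ c)).toAffine.Point := by
      unfold Module.finrank
      exact congrArg Cardinal.toNat h8
    refine ⟨ho, h8, ?_, h9⟩
    unfold RankFormula
    rw [ho, hr]

end Pool.Agent.Results.MP_32c55d_nt.RankStability
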