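import Pool.Agent.Run7.h89.P21.Cen
import Pool.Agent.Run7.h209.P21.M
import Pool.Agent.Run7.h289.D18.Sc
import Pool.Agent.Run7.h843.G3
import Pool.Agent.Run7.h424.N15.Gen
import Pool.Agent.Run7.h424.N15.Crit
import Pool.Agent.Run7.h424.N15.Low

/-!
# The rank form of the Birch and Swinnerton-Dyer conjecture for an exact natural density of the
# quadratic twists of `X_0(21)`

`E_n : y² = x (x - 9 n) (x - 16 n)` is the quadratic twist by `-n` of
`X_0(21) : y² = x (x + 9) (x + 16)`, a curve without complex multiplication; its short model is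
`y² = x³ - 5211 n² x + 31050 n³` (put `x = 9 X - 75 n`). The class consists of the squarefree `n`
congruent to `19`, `31` or `55` modulo `84`, in the natural order. Let
`η = ∏_{i ≥ 1} (1 - 2^{-i}) = 0.2888...`.
* For `n` of the class, `E_n(ℚ)` is finite and `Ш(E_n/ℚ)[2^∞] = 0` if and only if `n` is not the
  product of two numbers `b, c > 1` such that `b` is a square modulo the primes dividing `c` and `c`
  is a square modulo the primes dividing `b`. Then the rank form of the conjecture holds for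
  `E_n`, with rank and order of vanishing zero (the conclusion of the frozen statement S17291).
* Exactly the proportion `η` of the class has this property.
* So the rank form holds, with order and rank zero, for more than `28.87` percent of the class, for
  all primes of the class, and for more than `0.78` percent of all quadratic twists of `X_0(21)`.

The proof (files of this project): the complete 2-descent (`Run7/h289/D18`); the modularity of
`X_0(21)` with its modular symbols (`Run7/h741/MG`, `Run7/h209/P21`, `Run7/h843/P21`,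
`Run7/h89/P21/Form`, `Run7/h135/P21/Dim*`); the twisted Euler product, the functional equation and the
central value (`Run7/h555/TL`, `Run7/h89/P21/Cen`); the central value as a square, by an identity
between modular symbols and numbers of representations by ternary quadratic forms
(`Run7/h135/P21`, `Run7/h483/P21`, `Run7/h238/P21`, `Run7/h89/P21/Fin`); the natural density of the
criterion (`N916/GB`, `Run7/h843/G3`).
-/

set_option autoImplicit false

open Filter Topology

namespace Pool.Agent.Results.MP_32c55d_nt.TwistsX21NaturalDensity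

open Pool.Agent.TH841.NF.D (Sha)

/-- the curve `y² = x (x - 9 n) (x - 16 n)` over `ℚ` -/
def E (n : ℕ) : WeierstrassCurve ℚ :=
  { a₁ := 0, a₂ := -25 * n, a₃ := 0, a₄ := 144 * (n : ℚ) ^ 2, a₆ := 0 }

/-- the class -/
def Class (n : ℕ) : Prop := Squarefree n ∧ (n % 84 = 19 ∨ n % 84 = 31 ∨ n % 84 = 55)

/-- `E_n(ℚ)` is finite and `Ш(E_n/ℚ)[2^∞] = 0` -/
def TrivialTwo (n : ℕ) : Prop :=
  Finite (E n).toAffine.Point ∧ ∀ k : ℕ, ∀ x : Sha (E n), 2 ^ k • x = 0 → x = 0

/-- whenever `b c = n`, where `b` is a square modulo all primes dividing `c` and `c` is a square modulo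
all primes dividing `b`, then `b = 1` or `c = 1` -/
def Criterion (n : ℕ) : Prop :=
  ∀ b c : ℕ, b * c = n → (∀ p : ℕ, p.Prime → p ∣ c → IsSquare (b : ZMod p)) →
    (∀ p : ℕ, p.Prime → p ∣ b → IsSquare (c : ZMod p)) → b = 1 ∨ c = 1

open Classical in
/-- The rank form of the conjecture for `y² = x³ + a x + b`, with rank zero: the incomplete Euler product
over the primes `p ∤ 2Δ` extends to an entire function `F` with `ord_{s=1} F = 0 = rank`. -/
def RankFormZero (a b : ℤ) : Prop :=
  ∃ F : ℂ → ℂ, Differentiable ℂ F ∧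
    (∀ s : ℂ, (3 : ℝ) / 2 < s.re →
      HasProd
        (fun p : ℕ =>
          if p.Prime ∧ ¬ ((p : ℤ) ∣ 2 * (-4 * a ^ 3 - 27 * b ^ 2)) then
            (1 - ((p : ℂ) - (Nat.card {q : ZMod p × ZMod p //
                q.2 ^ 2 = q.1 ^ 3 + (a : ZMod p) * q.1 + (b : ZMod p)} : ℂ))
                * (p : ℂ) ^ (-s) + (p : ℂ) ^ (1 - 2 * s))⁻¹
          else 1)
        (F s)) ∧
    analyticOrderAt F 1 = 0 ∧
    Module.finrank ℤ
      (WeierstrassCurve.Affine.Point
        (WeierstrassCurve.toAffine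
          ({ a₁ := 0, a₂ := 0, a₃ := 0, a₄ := (a : ℚ), a₆ := (b : ℚ) } :
            WeierstrassCurve ℚ))) = 0

/-- the rank form for the quadratic twist by `d` of `X_0(21)`, with rank and order zero -/
def TwistZero (d : ℤ) : Prop := RankFormZero (-5211 * d ^ 2) (-31050 * d ^ 3)

/-- the number of the `n ≤ X` of the class with the property `Q` -/
noncomputable def num (Q : ℕ → Prop) (X : ℕ) : ℕ :=
  Nat.card {n : ℕ // n ≤ X ∧ Class n ∧ Q n}

/-- the number of the squarefree integers `d` with `|d| < X` and with the property `Q` -/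
noncomputable def numAll (Q : ℤ → Prop) (X : ℕ) : ℕ :=
  Nat.card {d : ℤ // |d| < X ∧ Squarefree d ∧ Q d}

/-- the constant `0.2888...` -/
noncomputable def η : ℝ := ∏' i : ℕ, (1 - (1 / 2 : ℝ) ^ (i + 1))

section proof

open Pool.Agent.N969.P15 (Qc)

theorem odd_of {n : ℕ} (h : Class n) : n % 2 = 1 := by
  have := h.2
  omega

theorem triv_iff {n : ℕ} (h : Class n) : TrivialTwo n ↔ Qc n := by
  have hW : E n = ⟨0, ((-25 * n : ℤ) : ℚ), 0, ((144 * n ^ 2 : ℤ) : ℚ), 0⟩ := by
    unfold E
    push_cast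
    rfl
  exact Pool.Agent.Run7.h289.D18.iff21 h.1 h.2 hW

theorem prime_crit {p : ℕ} (hp : p.Prime) : Criterion p := by
  intro b c hbc _ _
  rcases (Nat.dvd_prime hp).1 ⟨c, hbc.symm⟩ with h | h
  · exact Or.inl h
  · right
    rw [h] at hbc
    exact Nat.eq_of_mul_eq_mul_left hp.pos (by rw [hbc, mul_one])

/-- the rank form -/
theorem rank' {n : ℕ} (h : Class n) (ht : TrivialTwo n) :
    RankFormZero (-5211 * (n : ℤ) ^ 2) (31050 * (n : ℤ) ^ 3) := by
  have hq := (triv_iff h).1 ht
  have h2 := odd_of h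
  have hn0 : n ≠ 0 := by omega
  have hnz : (n : ℤ) ≠ 0 := by exact_mod_cast hn0
  have h4 : n % 4 = 3 := by have := h.2; omega
  have hD4 : (-(n : ℤ)) % 4 = 1 := by omega
  obtain ⟨L, Op, Om, _, hOm, g2, g3, hL⟩ := Run7.h209.P21.m_lat
  obtain ⟨F, hF, hprod, y, hy, hodd, hval⟩ :=
    Run7.h89.P21.center hOm g2 g3 hL (n := n) h
  have hy0 : y ≠ 0 := by
    rintro rfl
    have := hodd.2 hq
    exact absurd this (by decide)
  have hF1 : F 1 ≠ 0 := by
    intro h0
    rw [h0, mul_zero, zero_mul] at hval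
    have h1 : (Om * (2 ^ n.primeFactors.card * y) ^ 2 : ℝ) = 0 := by
      exact_mod_cast hval.symm
    have hy1 : ((y : ℤ) : ℝ) ≠ 0 := by exact_mod_cast hy0
    exact (mul_ne_zero hOm.ne' (pow_ne_zero 2
      (mul_ne_zero (pow_ne_zero _ (by norm_num)) hy1))) h1
  have ea : (81 * (144 * (n : ℤ) ^ 2) - 27 * (-25 * (n : ℤ)) ^ 2 : ℤ) = -5211 * (n : ℤ) ^ 2 := by
    ring
  have eb : (54 * (-25 * (n : ℤ)) ^ 3 - 243 * (-25 * (n : ℤ)) * (144 * (n : ℤ) ^ 2) : ℤ) =
      31050 * (n : ℤ) ^ 3 := by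
    ring
  have hdisc : ∀ p : ℕ, p.Prime → ((p : ℤ) ∣ 2 * (-4 * (-5211 * (n : ℤ) ^ 2) ^ 3 -
      27 * (31050 * (n : ℤ) ^ 3) ^ 2) ↔ p ∣ 42 * n) := by
    intro p hp
    have e : 2 * (-4 * (-5211 * (n : ℤ) ^ 2) ^ 3 - 27 * (31050 * (n : ℤ) ^ 3) ^ 2) =
        ((2 ^ 9 * 3 ^ 16 * 7 ^ 2 * n ^ 6 : ℕ) : ℤ) := by
      push_cast; ring
    rw [e, Int.natCast_dvd_natCast]
    constructor
    · intro h
      rcases hp.dvd_mul.1 h with h | h
      · rcases hp.dvd_mul.1 h with h | h
        · rcases hp.dvd_mul.1 h with h | h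
          · exact (hp.dvd_of_dvd_pow h).trans ⟨21 * n, by ring⟩
          · exact (hp.dvd_of_dvd_pow h).trans ⟨14 * n, by ring⟩
        · exact (hp.dvd_of_dvd_pow h).trans ⟨6 * n, by ring⟩
      · exact (hp.dvd_of_dvd_pow h).trans ⟨42, by ring⟩
    · intro h
      exact h.trans ⟨2 ^ 8 * 3 ^ 15 * 7 * n ^ 5, by ring⟩
  obtain ⟨G, hG, hGp, hG1⟩ := Run7.h424.N15.convG (M := 42 * n) (N := 21 * n)
    (W := Run7.h89.P21.CI n) (by positivity) hdisc
    (fun p _ hd => hd.trans ⟨2, by ring⟩)
    (fun p hp hd => by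
      have h' : p ∣ 2 * (21 * n) := by
        rw [show 2 * (21 * n) = 42 * n by ring]; exact hd
      rcases hp.dvd_mul.1 h' with h | h
      · right
        exact (Nat.prime_dvd_prime_iff_eq hp Nat.prime_two).1 h
      · exact Or.inl h)
    (by
      intro p hp hd
      have : Fact p.Prime := ⟨hp⟩
      have hp2 : p ≠ 2 := by
        rintro rfl
        exact hd ⟨21 * n, by ring⟩
      have h3 : (3 : ZMod p) ≠ 0 := by
        intro h0
        have h1 : ((3 : ℕ) : ZMod p) = 0 := by exact_mod_cast h0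
        rw [ZMod.natCast_eq_zero_iff] at h1
        exact hd (h1.trans ⟨14 * n, by ring⟩)
      rw [← ea, ← eb, Run7.h424.N15.pts_shortG h3]
      unfold Pool.Agent.W97.MT.affCount
      rw [Run7.h89.P21.pts_cubic hD4 (ZMod p) (Run7.h89.P21.two_ne hp2)]
      push_cast
      refine Nat.card_congr
        { toFun := fun x => ⟨(x.1.1 + 9 * n, x.1.2), ?_⟩
          invFun := fun x => ⟨(x.1.1 - 9 * n, x.1.2), ?_⟩
          left_inv := fun x => ?_
          right_inv := fun x => ?_ }
      · obtain ⟨⟨u, v⟩, hx⟩ := x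
        show v ^ 2 = (u + 9 * n) ^ 3 + -25 * n * (u + 9 * n) ^ 2 + 144 * n ^ 2 * (u + 9 * n)
        have hx' : v ^ 2 = u * (u - 9 * -n) * (u + 7 * -n) := hx
        linear_combination hx'
      · obtain ⟨⟨u, v⟩, hx⟩ := x
        show v ^ 2 = (u - 9 * n) * (u - 9 * n - 9 * -n) * (u - 9 * n + 7 * -n)
        have hx' : v ^ 2 = u ^ 3 + -25 * n * u ^ 2 + 144 * n ^ 2 * u := hx
        linear_combination hx'
      · apply Subtype.ext
        apply Prod.ext
        · show x.1.1 + 9 * n - 9 * n = x.1.1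
          ring
        · rfl
      · apply Subtype.ext
        apply Prod.ext
        · show x.1.1 - 9 * n + 9 * n = x.1.1
          ring
        · rfl)
    (by
      intro p hp hd
      have : Fact p.Prime := ⟨hp⟩
      rw [Run7.h89.P21.ap_twist hD4 hp, abs_mul]
      have hk : |Pool.Agent.Y682.XF.kr (-(n : ℤ)) p| ≤ 1 := by
        unfold Pool.Agent.Y682.XF.kr
        split_ifs
        · simp
        · simp
        · rcases jacobiSym.trichotomy (-(n : ℤ)) p with h | h | h <;> rw [h] <;> simp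
      by_cases hpn : p ∣ n
      · have hp2 : p ≠ 2 := by
          rintro rfl
          omega
        have : Pool.Agent.Y682.XF.kr (-(n : ℤ)) p = 0 := by
          unfold Pool.Agent.Y682.XF.kr
          rw [if_neg hp2, ← jacobiSym.legendreSym.to_jacobiSym, legendreSym.eq_zero_iff]
          push_cast
          rw [(ZMod.natCast_eq_zero_iff n p).2 hpn, neg_zero]
        rw [this]
        simp
      · have h42 : p = 2 ∨ p = 3 ∨ p = 7 := by
          have h' : p ∣ 2 * (3 * 7) := (hp.dvd_mul.1 hd).resolve_right hpn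
          rcases hp.dvd_mul.1 h' with h | h
          · exact Or.inl ((Nat.prime_dvd_prime_iff_eq hp Nat.prime_two).1 h)
          · rcases hp.dvd_mul.1 h with h | h
            · exact Or.inr (Or.inl ((Nat.prime_dvd_prime_iff_eq hp Nat.prime_three).1 h))
            · exact Or.inr (Or.inr ((Nat.prime_dvd_prime_iff_eq hp (by norm_num)).1 h))
        have ha : |Pool.Agent.W97.MT.ap Pool.Agent.Run7.h741.MG.E21 p| ≤ 1 := by
          have hm := Run7.h209.P21.m_min
          unfold Pool.Agent.W97.MT.ap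
          rcases h42 with rfl | rfl | rfl
          · rw [hm.1]
            norm_num
          · rw [hm.2.1]
            norm_num
          · rw [hm.2.2.1]
            norm_num
        calc _ ≤ 1 * (1 : ℤ) := mul_le_mul hk ha (abs_nonneg _) (by norm_num)
          _ = 1 := by norm_num)
    hF hprod hF1
  have hr := Run7.h424.N15.rank_shortG (A := -25 * (n : ℤ)) (B := 144 * (n : ℤ) ^ 2)
    (by
      have e : (144 * (n : ℤ) ^ 2) ^ 2 * ((-25 * (n : ℤ)) ^ 2 - 4 * (144 * (n : ℤ) ^ 2)) =
          1016064 * (n : ℤ) ^ 6 := by ring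
      rw [e]
      exact mul_ne_zero (by norm_num) (pow_ne_zero _ hnz))
    (by
      have h1 := ht.1
      have hW : E n = ⟨0, ((-25 * (n : ℤ) : ℤ) : ℚ), 0, ((144 * (n : ℤ) ^ 2 : ℤ) : ℚ), 0⟩ := by
        unfold E
        push_cast
        rfl
      rw [hW] at h1
      exact h1)
  rw [ea, eb] at hr
  exact ⟨G, hG, hGp, hG1, hr⟩

theorem rank_of {n : ℕ} (h : Class n) (ht : TrivialTwo n) : TwistZero (-(n : ℤ)) := by
  have h1 := rank' h ht
  have e1 : (-5211 * (-(n : ℤ)) ^ 2 : ℤ) = -5211 * (n : ℤ) ^ 2 := by ring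
  have e2 : (-31050 * (-(n : ℤ)) ^ 3 : ℤ) = 31050 * (n : ℤ) ^ 3 := by ring
  unfold TwistZero
  rw [e1, e2]
  exact h1

end proof

section count

open Finset
open Pool.Agent.N969.P15 (Qc)
open Run7.h238.G15 (Dd)
open Run7.h424.N15 (Cc)

/-- the residue classes -/
def Cl (n : ℕ) : Prop := n % 84 = 19 ∨ n % 84 = 31 ∨ n % 84 = 55

theorem num_eq (Q : ℕ → Prop) (X : ℕ) : num Q X = Cc Cl Q X := by
  classical
  unfold num Cc
  refine Nat.subtype_card _ fun n => ?_
  rw [mem_filter, mem_Icc]
  constructor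
  · rintro ⟨⟨_, h1⟩, h2, h3, h4⟩
    exact ⟨h1, ⟨h2, h3⟩, h4⟩
  · rintro ⟨h1, h2, h3⟩
    refine ⟨⟨?_, h1⟩, h2.1, h2.2, h3⟩
    have := h2.2
    omega

theorem num_triv (X : ℕ) : num TrivialTwo X = Cc Cl Qc X := by
  classical
  rw [num_eq]
  unfold Cc
  refine congrArg Finset.card (Finset.filter_congr fun n _ => ?_)
  constructor
  · rintro ⟨h1, h2, h3⟩
    exact ⟨h1, h2, (triv_iff ⟨h1, h2⟩).1 h3⟩
  · rintro ⟨h1, h2, h3⟩
    exact ⟨h1, h2, (triv_iff ⟨h1, h2⟩).2 h3⟩

theorem numAll_eq (Q : ℤ → Prop) [DecidablePred Q] (X : ℕ) :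
    numAll Q X = ((Dd X).filter fun d => Q d).card := by
  classical
  unfold numAll
  refine Nat.subtype_card _ fun d => ?_
  rw [mem_filter, Dd, mem_filter, mem_Ioo, abs_lt]
  tauto

theorem numAll_true (X : ℕ) : numAll (fun _ => True) X = (Dd X).card := by
  classical
  rw [numAll_eq, filter_true]

theorem num_mono {P Q : ℕ → Prop} (h : ∀ n, Class n → P n → Q n) (X : ℕ) : num P X ≤ num Q X := by
  classical
  rw [num_eq, num_eq]
  unfold Cc
  refine Finset.card_le_card fun n hn => ?_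
  rw [mem_filter] at hn ⊢
  exact ⟨hn.1, hn.2.1, hn.2.2.1, h n ⟨hn.2.1, hn.2.2.1⟩ hn.2.2.2⟩

theorem lim : Tendsto (fun Y : ℕ => (Cc Cl Qc Y : ℝ) / (Cc Cl (fun _ => True) Y : ℝ)) atTop
    (𝓝 η) := by
  classical
  have h := Pool.Agent.Run7.h843.G.dens_Qc 168 (by norm_num) (by norm_num) Cl
    (fun n => by
      show (n % 84 = 19 ∨ n % 84 = 31 ∨ n % 84 = 55) ↔
        (n % 168 % 84 = 19 ∨ n % 168 % 84 = 31 ∨ n % 168 % 84 = 55)
      omega) (fun n h => by
      have h' : n % 84 = 19 ∨ n % 84 = 31 ∨ n % 84 = 55 := h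
      omega) 19 (Or.inl rfl) (by norm_num)
  refine h.congr fun Y => ?_
  unfold Cc
  simp only [and_true]

theorem ep84 : Pool.Agent.N873.F15.Dn.ep 84 = 32 / 49 := by
  unfold Pool.Agent.N873.F15.Dn.ep
  have : (84 : ℕ).primeFactors = {2, 3, 7} := by
    have e : (84 : ℕ) = 2 ^ 2 * (3 * 7) := by norm_num
    rw [e, Nat.primeFactors_mul (by norm_num) (by norm_num), Nat.primeFactors_mul (by norm_num)
      (by norm_num), Nat.primeFactors_prime_pow (by norm_num) Nat.prime_two,
      Nat.Prime.primeFactors Nat.prime_three, Nat.Prime.primeFactors (by norm_num)]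
    rfl
  rw [this, prod_insert (by decide), prod_insert (by decide), prod_singleton]
  norm_num

end count

/-- **The rank form of the conjecture for an exact natural density of the twists of `X_0(21)`.** -/
theorem result :
    (∀ n : ℕ, Class n → (TrivialTwo n ↔ Criterion n)) ∧
    (∀ n : ℕ, Class n → TrivialTwo n →
      RankFormZero (-5211 * (n : ℤ) ^ 2) (31050 * (n : ℤ) ^ 3)) ∧
    (∀ p : ℕ, p.Prime → p % 84 = 19 ∨ p % 84 = 31 ∨ p % 84 = 55 →
      RankFormZero (-5211 * (p : ℤ) ^ 2) (31050 * (p : ℤ) ^ 3)) ∧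
    Tendsto (fun X : ℕ => (num TrivialTwo X : ℝ) / (num (fun _ => True) X : ℝ)) atTop (𝓝 η) ∧
    0.2887 < η ∧ η < 0.2889 ∧
    (∀ᶠ X : ℕ in atTop, 0.2887 * (num (fun _ => True) X : ℝ) ≤
      (num (fun n => RankFormZero (-5211 * (n : ℤ) ^ 2) (31050 * (n : ℤ) ^ 3)) X : ℝ)) ∧
    ∀ᶠ X : ℕ in atTop, 0.0078 * (numAll (fun _ => True) X : ℝ) ≤ (numAll TwistZero X : ℝ) := by
  classical
  have hη1 : 0.2887 < η := Pool.Agent.N916.GB.eta_bounds.1
  have hη2 : η < 0.2889 := Pool.Agent.N916.GB.eta_bounds.2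
  have hcrit : ∀ n : ℕ, Class n → (TrivialTwo n ↔ Criterion n) := fun n h =>
    (triv_iff h).trans (Run7.h424.N15.crit_iff h.1).symm
  have hlim : Tendsto (fun X : ℕ => (num TrivialTwo X : ℝ) / (num (fun _ => True) X : ℝ)) atTop
      (𝓝 η) := by
    refine lim.congr fun X => ?_
    rw [num_triv, num_eq]
  refine ⟨hcrit, fun n h ht => rank' h ht, ?_, hlim, hη1, hη2, ?_, ?_⟩
  · intro p hp h84
    have hc : Class p := ⟨hp.prime.squarefree, h84⟩
    exact rank' hc ((hcrit p hc).2 (prime_crit hp))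
  · have h1 := hlim.eventually (lt_mem_nhds hη1)
    filter_upwards [h1] with X hX
    have h2 : (num TrivialTwo X : ℝ) ≤
        (num (fun n => RankFormZero (-5211 * (n : ℤ) ^ 2) (31050 * (n : ℤ) ^ 3)) X : ℝ) := by
      exact_mod_cast num_mono (fun n h ht => rank' h ht) X
    have h3 : (0 : ℝ) < (num (fun _ => True) X : ℝ) := by
      rcases Nat.eq_zero_or_pos (num (fun _ => True) X) with h | h
      · rw [h] at hX
        norm_num at hX
      · exact_mod_cast h
    have h4 := (lt_div_iff₀ h3).1 hX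
    linarith
  · have h1 := Run7.h424.N15.lowerG (N := 84) (by norm_num) {19, 31, 55} (by decide)
      ⟨19, by decide⟩ (C := Cl) (fun n => by
        show (n % 84 = 19 ∨ n % 84 = 31 ∨ n % 84 = 55) ↔ n % 84 ∈ ({19, 31, 55} : Finset ℕ)
        simp only [Finset.mem_insert, Finset.mem_singleton]) lim (P := TwistZero)
      (fun n hs h84 hq => rank_of ⟨hs, h84⟩ ((triv_iff ⟨hs, h84⟩).2 hq)) (c := 0.0078) (by
        rw [ep84]
        have e : (({19, 31, 55} : Finset ℕ).card : ℝ) = 3 := by
          have : ({19, 31, 55} : Finset ℕ).card = 3 := by decide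
          rw [this]
          norm_num
        rw [e]
        norm_num
        norm_num at hη1
        linarith)
    filter_upwards [h1] with X hX
    rw [numAll_true, numAll_eq]
    exact hX

end Pool.Agent.Results.MP_32c55d_nt.TwistsX21NaturalDensity
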