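import Mathlib
import Pool.Agent.Run7.h508.BR.Zero
import Pool.Agent.Run7.h508.BR.PC
import Pool.Agent.Run7.h508.BR.EC

/-!
# The Birch and Swinnerton-Dyer rank conjecture over all number fields and everywhere unramified
# extensions of prime degree

`E` is an elliptic curve over a number field `k`, given by an integral Weierstrass equation. If the
conjecture holds over one totally complex field `K₀ ⊇ k`, and for every real place `v` of `k` over
one field `K_v ⊇ k` whose real places all lie over `v` (for `k = ℚ`: over `ℚ`), then it holds over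
all number fields `K ⊇ k` if and only if it holds for the quotients `L(E/L, s) / L(E/K, s)`, where
`L/K` is an everywhere unramified extension of prime degree of a totally complex field, completely
split above a given integer `m`.

The L-functions are taken without the Euler factors at the primes which divide the discriminant of
the equation (finitely many factors, finite and nonzero at `s = 1`), and up to powers: the property
`Order` says that some power has a meromorphic continuation with the right order at `s = 1`. When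
the L-function itself has a meromorphic continuation, this is the Birch and Swinnerton-Dyer rank
conjecture for it (second part of the theorem).
-/

set_option autoImplicit false
set_option linter.unusedSectionVars false

namespace Pool.Agent.Results.MP_32c55d_nt.UnramifiedExtensions

open NumberField IsDedekindDomain

/-- The number of the affine points of the reduction of `W` modulo the prime `v` with coordinates in
the extension of degree `n` of the residue field of `v`. -/
noncomputable def affinePoints {K : Type} [Field K] [NumberField K] (W : WeierstrassCurve (𝓞 K))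
    (v : HeightOneSpectrum (𝓞 K)) (n : ℕ) : ℕ :=
  Nat.card {z : AlgebraicClosure v.asIdeal.ResidueField × AlgebraicClosure v.asIdeal.ResidueField //
    z.1 ^ (Ideal.absNorm v.asIdeal ^ n) = z.1 ∧ z.2 ^ (Ideal.absNorm v.asIdeal ^ n) = z.2 ∧
      (W.map (algebraMap (𝓞 K) (AlgebraicClosure v.asIdeal.ResidueField))).toAffine.Equation
        z.1 z.2}

open Classical in
/-- The trace `α ^ n + β ^ n = q ^ n + 1 - #E(𝔽_{q ^ n})` of the `n`-th power of the Frobenius
automorphism at `v`, `q = N(v)`; zero when `v` divides the discriminant. -/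
noncomputable def trace {K : Type} [Field K] [NumberField K] (W : WeierstrassCurve (𝓞 K))
    (v : HeightOneSpectrum (𝓞 K)) (n : ℕ) : ℂ :=
  if W.Δ ∈ v.asIdeal then 0 else (Ideal.absNorm v.asIdeal : ℂ) ^ n - affinePoints W v n

/-- The term of `log L(E/K, s)` of the power `v ^ n`. -/
noncomputable def term {K : Type} [Field K] [NumberField K] (W : WeierstrassCurve (𝓞 K)) (s : ℂ)
    (x : HeightOneSpectrum (𝓞 K) × ℕ+) : ℂ :=
  trace W x.1 x.2 / ((x.2 : ℕ) * (Ideal.absNorm x.1.asIdeal : ℂ) ^ (((x.2 : ℕ) : ℂ) * s))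

/-- `log L(E/K, s)`, `Re s > 2`. -/
noncomputable def logL {K : Type} [Field K] [NumberField K] (W : WeierstrassCurve (𝓞 K)) (s : ℂ) :
    ℂ := ∑' x : HeightOneSpectrum (𝓞 K) × ℕ+, term W s x

open Classical in
/-- The rank of the group `E(K)`. -/
noncomputable def rank {K : Type} [Field K] [NumberField K] (W : WeierstrassCurve (𝓞 K)) : ℕ :=
  Module.finrank ℤ (W.map (algebraMap (𝓞 K) K)).toAffine.Point

/-- For some `n > 0` the `n`-th power of the function `exp (l s)`, `Re s > 2`, has a meromorphic
continuation to `ℂ`, of order `n r` at `s = 1`. -/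
def Order (l : ℂ → ℂ) (r : ℤ) : Prop :=
  ∃ n : ℕ, 0 < n ∧ ∃ Z : ℂ → ℂ, MeromorphicOn Z Set.univ ∧
    (∀ s : ℂ, 2 < s.re → Z s = Complex.exp (n * l s)) ∧
    meromorphicOrderAt Z 1 = ((n * r : ℤ) : WithTop ℤ)

/-- The equation over a larger field. -/
noncomputable def extendTo {k : Type} [Field k] [NumberField k] (W : WeierstrassCurve (𝓞 k)) (K : Type)
    [Field K] [NumberField K] [Algebra k K] : WeierstrassCurve (𝓞 K) :=
  W.map (algebraMap (𝓞 k) (𝓞 K))

/-- **The Birch and Swinnerton-Dyer rank conjecture** for `E` over `K ⊇ k`: `L(E/K, s)` has order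
`rank E(K)` at `s = 1`. -/
def BSD {k : Type} [Field k] [NumberField k] (W : WeierstrassCurve (𝓞 k)) (K : Type) [Field K]
    [NumberField K] [Algebra k K] : Prop :=
  Order (logL (extendTo W K)) (rank (extendTo W K))

/-- The conjecture for the quotient: `L(E/L, s) / L(E/K, s)` has order `rank E(L) - rank E(K)`. -/
def BSDQuotient {k : Type} [Field k] [NumberField k] (W : WeierstrassCurve (𝓞 k)) (K L : Type)
    [Field K] [NumberField K] [Algebra k K] [Field L] [NumberField L] [Algebra k L] : Prop :=
  Order (fun s => logL (extendTo W L) s - logL (extendTo W K) s) (rank (extendTo W L) - rank (extendTo W K))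

/-- All inertia groups of `L/K` are trivial, and the decomposition groups of the primes above `m`
are trivial. -/
def UnramifiedSplit (m : ℕ) (K L : Type) [Field K] [Field L] [Algebra K L] : Prop :=
  ∀ P : Ideal (𝓞 L), P.IsMaximal → ∀ g : L ≃ₐ[K] L,
    ((∀ x y : 𝓞 L, (y : L) = g x → y - x ∈ P) → g = 1) ∧
    ((m : 𝓞 L) ∈ P → (∀ x y : 𝓞 L, (y : L) = g x → (y ∈ P ↔ x ∈ P)) → g = 1)

/-- The conjecture for the quotients in the everywhere unramified extensions of prime degree, split
above `m`, of totally complex fields `K ⊇ k`. -/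
def UnramifiedCase {k : Type} [Field k] [NumberField k] (W : WeierstrassCurve (𝓞 k)) (m : ℕ) :
    Prop :=
  ∀ (K L : Type) [Field K] [NumberField K] [Field L] [NumberField L] [Algebra k K] [Algebra K L]
    [Algebra k L] [IsScalarTower k K L] [IsGalois K L], IsTotallyComplex K →
    (Module.finrank K L).Prime → UnramifiedSplit m K L → BSDQuotient W K L

/-- The number of the real embeddings of `K` over the embedding `v` of `k`. -/
noncomputable def realAbove {k : Type} [Field k] (v : k →+* ℂ) (K : Type) [Field K] [Algebra k K] :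
    ℕ := Nat.card {χ : K →+* ℂ // ComplexEmbedding.IsReal χ ∧ χ.comp (algebraMap k K) = v}

open Pool.Agent.Run7.h508.BR in
lemma unrSplit_of {m : ℕ} {K L : Type} [Field K] [Field L] [Algebra K L]
    (h : UnrSplit m K L) : UnramifiedSplit m K L := by
  intro P hP g
  refine ⟨fun h1 => (h P hP).1 g fun x => h1 x _ rfl, fun hm h1 => (h P hP).2 hm g fun x =>
    h1 x _ rfl⟩

open Pool.Agent.Run7.h508.BR in
lemma order_iff {l l' : ℂ → ℂ} {r : ℤ} (h : ∀ s : ℂ, 2 < s.re → l s = l' s) :
    Order l r ↔ WCont l' r := by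
  constructor
  · rintro ⟨n, hn, Z, h1, h2, h3⟩
    refine ⟨n, hn, n * r, by push_cast; rfl, Z, h1, fun s hs => ?_, h3⟩
    rw [h2 s hs, h s hs, Pi.smul_apply, nsmul_eq_mul]
  · rintro ⟨n, hn, m, hm, Z, h1, h2, h3⟩
    refine ⟨n, hn, Z, h1, fun s hs => ?_, ?_⟩
    · rw [h2 s hs, h s hs, Pi.smul_apply, nsmul_eq_mul]
    · have h4 : m = n * r := by exact_mod_cast hm
      rw [h3, h4]

open Pool.Agent.Run7.h508.BR in
lemma trace_eq {K : Type} [Field K] [NumberField K] (W : WeierstrassCurve (𝓞 K))
    (x : HeightOneSpectrum (𝓞 K) × ℕ+) : trace W x.1 x.2 = wE W x := rfl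

open Pool.Agent.Run7.h508.BR in
lemma logL_eq {k : Type} [Field k] [NumberField k] (W : WeierstrassCurve (𝓞 k)) (K : Type)
    [Field K] [NumberField K] [Algebra k K] (s : ℂ) : logL (extendTo W K) s = Lam (wE W) K s := by
  unfold logL Lam
  congr 1
  funext x
  unfold term
  rw [trace_eq, extendTo, wE_base]
  rfl

open Pool.Agent.Run7.h508.BR in
lemma rank_eq {k : Type} [Field k] [NumberField k] (W : WeierstrassCurve (𝓞 k)) (K : Type)
    [Field K] [NumberField K] [Algebra k K] :
    rank (extendTo W K) = rk K ((W.map (algebraMap (𝓞 k) k)).map (algebraMap k K)) := by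
  have h1 : (extendTo W K).map (algebraMap (𝓞 K) K) =
      (W.map (algebraMap (𝓞 k) k)).map (algebraMap k K) := by
    rw [extendTo, WeierstrassCurve.map_map, WeierstrassCurve.map_map]
    congr 1
  unfold rank rk
  rw [h1]

section proof

open Pool.Agent.Run7.h508.BR

variable {k : Type} [Field k] [NumberField k] (W : WeierstrassCurve (𝓞 k))

lemma disc_ne (hΔ : W.Δ ≠ 0) : (W.map (algebraMap (𝓞 k) k)).Δ ≠ 0 := by
  rw [WeierstrassCurve.map_Δ]
  exact fun h => hΔ ((map_eq_zero_iff _ RingOfIntegers.coe_injective).mp h)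

/-- the pair of the logarithm of the L-function and the rank, modulo the conjecture -/
noncomputable def defect (hΔ : W.Δ ≠ 0) : FieldFun k (((ℂ → ℂ) × ℚ) ⧸ contSub) :=
  ((lfun (wE W) (wE_bound W)).pair (rkFun (W.map (algebraMap (𝓞 k) k)) (disc_ne W hΔ))).comp
    contSub.mkQ.toAddMonoidHom

/-- the pair of the logarithm of the L-function and the rank -/
noncomputable def vec (K : Type) [Field K] [NumberField K] [Algebra k K] : (ℂ → ℂ) × ℚ :=
  (fun s => if 2 < s.re then Lam (wE W) K s else 0,
    (rk K ((W.map (algebraMap (𝓞 k) k)).map (algebraMap k K)) : ℚ))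

lemma defect_f (hΔ : W.Δ ≠ 0) (K : Type) [Field K] [NumberField K] [Algebra k K] :
    (defect W hΔ).f K = contSub.mkQ (vec W K) := by
  change contSub.mkQ (((lfun (wE W) (wE_bound W)).f K,
    (rkFun (W.map (algebraMap (𝓞 k) k)) (disc_ne W hΔ)).f K)) = _
  congr 1

lemma bsd_iff (hΔ : W.Δ ≠ 0) (K : Type) [Field K] [NumberField K] [Algebra k K] :
    BSD W K ↔ (defect W hΔ).f K = 0 := by
  rw [defect_f, Submodule.mkQ_apply, Submodule.Quotient.mk_eq_zero, mem_contSub, BSD,
    order_iff (l' := (vec W K).1) (fun s hs => by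
      rw [logL_eq]
      change _ = if 2 < s.re then Lam (wE W) K s else 0
      rw [if_pos hs])]
  have h1 : (vec W K).2 = ((rank (extendTo W K) : ℤ) : ℚ) := by
    rw [rank_eq]
    rfl
  rw [h1]

lemma quot_iff (hΔ : W.Δ ≠ 0) (K L : Type) [Field K] [NumberField K] [Algebra k K] [Field L]
    [NumberField L] [Algebra k L] :
    BSDQuotient W K L ↔ (defect W hΔ).f K = (defect W hΔ).f L := by
  rw [eq_comm, ← sub_eq_zero, defect_f, defect_f, ← map_sub, Submodule.mkQ_apply,
    Submodule.Quotient.mk_eq_zero, mem_contSub, BSDQuotient,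
    order_iff (l' := (vec W L - vec W K).1) (fun s hs => by
      rw [logL_eq, logL_eq]
      change _ = (if 2 < s.re then Lam (wE W) L s else 0) - (if 2 < s.re then Lam (wE W) K s else 0)
      rw [if_pos hs, if_pos hs])]
  have h1 : (vec W L - vec W K).2 =
      (((rank (extendTo W L) : ℤ) - (rank (extendTo W K) : ℤ) : ℤ) : ℚ) := by
    rw [rank_eq, rank_eq]
    push_cast
    rfl
  rw [h1]

lemma noChange_of (hΔ : W.Δ ≠ 0) {m : ℕ} (h : UnramifiedCase W m) : NoChange (defect W hΔ) m := by
  intro K L _ _ _ _ _ _ _ _ _ hK hp hu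
  exact (quot_iff W hΔ K L).mp (h K L hK hp (unrSplit_of hu))

/-- the relations -/
lemma relation_of (hΔ : W.Δ ≠ 0) {m : ℕ} (hm : m ≠ 0) (h : UnramifiedCase W m) (K₀ : Type)
    [Field K₀] [NumberField K₀] [Algebra k K₀] (hK₀ : IsTotallyComplex K₀) (ι : Type) [Fintype ι]
    (K : ι → Type) [∀ i, Field (K i)] [∀ i, NumberField (K i)] [∀ i, Algebra k (K i)] (t : ι → ℤ)
    (ht : ∀ v : k →+* ℂ, ∑ i, t i * (realAbove v (K i) : ℤ) = 0) :
    Order (fun s => ∑ i, t i * (logL (extendTo W (K i)) s - logL (extendTo W K₀) s))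
      (∑ i, t i * ((rank (extendTo W (K i)) : ℤ) - rank (extendTo W K₀))) := by
  have key := real_formula_base (defect W hΔ) hm (noChange_of W hΔ h) K₀ hK₀ K
    (fun i => (t i : ℚ)) (fun v => by
      have h1 := congrArg (fun z : ℤ => (z : ℚ)) (ht v)
      push_cast at h1
      exact h1)
  have h1 : ∀ i, (t i : ℚ) • ((defect W hΔ).f (K i) - (defect W hΔ).f K₀) =
      contSub.mkQ ((t i : ℚ) • (vec W (K i) - vec W K₀)) := by
    intro i
    rw [defect_f, defect_f, map_smul, map_sub]
  rw [Finset.sum_congr rfl (fun i _ => h1 i), ← map_sum, Submodule.mkQ_apply,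
    Submodule.Quotient.mk_eq_zero, mem_contSub] at key
  have h2 : (∑ i, (t i : ℚ) • (vec W (K i) - vec W K₀)).2 =
      ((∑ i, t i * ((rank (extendTo W (K i)) : ℤ) - rank (extendTo W K₀)) : ℤ) : ℚ) := by
    rw [Prod.snd_sum]
    push_cast
    refine Finset.sum_congr rfl fun i _ => ?_
    rw [rank_eq, rank_eq]
    rfl
  rw [h2] at key
  refine (order_iff (fun s hs => ?_)).mpr key
  rw [Prod.fst_sum, Finset.sum_apply]
  refine Finset.sum_congr rfl fun i _ => ?_
  rw [logL_eq, logL_eq]
  change _ = ((t i : ℚ) • ((if 2 < s.re then Lam (wE W) (K i) s else 0) -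
    (if 2 < s.re then Lam (wE W) K₀ s else 0)) : ℂ)
  rw [if_pos hs, if_pos hs, Rat.smul_def]
  push_cast
  rfl

lemma iff_of (hΔ : W.Δ ≠ 0) {m : ℕ} (hm : m ≠ 0) (K₀ : Type) [Field K₀] [NumberField K₀]
    [Algebra k K₀] (hK₀ : IsTotallyComplex K₀) (h0 : BSD W K₀)
    (hv : ∀ v : k →+* ℂ, ComplexEmbedding.IsReal v →
      ∃ (E : Type) (_ : Field E) (_ : NumberField E) (_ : Algebra k E),
        0 < realAbove v E ∧ (∀ v', v' ≠ v → realAbove v' E = 0) ∧ BSD W E) :
    (∀ (K : Type) [Field K] [NumberField K] [Algebra k K], BSD W K) ↔ UnramifiedCase W m := by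
  constructor
  · intro h K L _ _ _ _ _ _ _ _ _ _ _ _
    rw [quot_iff W hΔ, (bsd_iff W hΔ K).mp (h K), (bsd_iff W hΔ L).mp (h L)]
  · intro h K _ _ _
    rw [bsd_iff W hΔ]
    refine zero_of_real (defect W hΔ) hm (noChange_of W hΔ h) K₀ hK₀ ((bsd_iff W hΔ K₀).mp h0)
      (fun v hreal => ?_) K
    obtain ⟨E, e1, e2, e3, h1, h2, h3⟩ := hv v hreal
    exact ⟨E, e1, e2, e3, h1, h2, (bsd_iff W hΔ E).mp h3⟩

end proof

/-- **Main theorem.**

* The series `log L(E/K, s)` converges absolutely for `Re s > 2`.
* If `Order l r`, and the function `exp (l s)`, `Re s > 2`, itself has a meromorphic continuation,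
  then it has order `r` at `s = 1`.
* Let `E` be an elliptic curve over `k`, let `K₀ ⊇ k` be totally complex, and assume the conjecture
  for the quotients in the unramified case. For all finite families of fields `K_i ⊇ k` and
  integers `t_i` such that `∑ t_i r_v(K_i) = 0` for all real places `v` of `k` (`r_v(K_i)` is the
  number of the real places of `K_i` over `v`), the conjecture holds for the product of the
  `(L(E/K_i, s) / L(E/K₀, s)) ^ t_i`. So the quotients `L(E/K, s) / L(E/K₀, s)` have the predicted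
  order for all totally complex `K ⊇ k`.
* Assume that the conjecture holds over one totally complex field `K₀ ⊇ k` and for every real place
  `v` of `k` over one field `K_v ⊇ k` which has real places, all of them over `v`. Then the
  conjecture holds for `E` over all number fields `K ⊇ k` if and only if it holds for the quotients
  in the unramified case.
* Let `E` be an elliptic curve over `ℚ`. If the conjecture holds over `ℚ` and over one totally
  complex field (for example an imaginary quadratic one), then it holds over all number fields if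
  and only if it holds for the quotients in the unramified case. -/
theorem result :
    (∀ (K : Type) [Field K] [NumberField K] (W : WeierstrassCurve (𝓞 K)) (s : ℂ), 2 < s.re →
      Summable (term W s)) ∧
    (∀ (l : ℂ → ℂ) (r : ℤ), Order l r → ∀ Λ : ℂ → ℂ, MeromorphicOn Λ Set.univ →
      (∀ s : ℂ, 2 < s.re → Λ s = Complex.exp (l s)) → meromorphicOrderAt Λ 1 = r) ∧
    (∀ (k : Type) [Field k] [NumberField k] (W : WeierstrassCurve (𝓞 k)) (m : ℕ), W.Δ ≠ 0 →
      m ≠ 0 → ∀ (K₀ : Type) [Field K₀] [NumberField K₀] [Algebra k K₀], IsTotallyComplex K₀ →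
      (UnramifiedCase W m → ∀ (ι : Type) [Fintype ι] (K : ι → Type) [∀ i, Field (K i)]
        [∀ i, NumberField (K i)] [∀ i, Algebra k (K i)] (t : ι → ℤ),
        (∀ v : k →+* ℂ, ∑ i, t i * (realAbove v (K i) : ℤ) = 0) →
        Order (fun s => ∑ i, t i * (logL (extendTo W (K i)) s - logL (extendTo W K₀) s))
          (∑ i, t i * ((rank (extendTo W (K i)) : ℤ) - rank (extendTo W K₀)))) ∧
      (BSD W K₀ → (∀ v : k →+* ℂ, ComplexEmbedding.IsReal v →
          ∃ (E : Type) (_ : Field E) (_ : NumberField E) (_ : Algebra k E),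
            0 < realAbove v E ∧ (∀ v', v' ≠ v → realAbove v' E = 0) ∧ BSD W E) →
        ((∀ (K : Type) [Field K] [NumberField K] [Algebra k K], BSD W K) ↔
          UnramifiedCase W m))) ∧
    ∀ (W : WeierstrassCurve (𝓞 ℚ)) (m : ℕ), W.Δ ≠ 0 → m ≠ 0 → ∀ (K₀ : Type) [Field K₀]
      [NumberField K₀], IsTotallyComplex K₀ → BSD W ℚ → BSD W K₀ →
      ((∀ (K : Type) [Field K] [NumberField K], BSD W K) ↔ UnramifiedCase W m) := by
  refine ⟨?_, ?_, ?_, ?_⟩
  · intro K _ _ W s hs
    have h1 := Pool.Agent.Run7.h508.BR.summable_w (K := K) (L := K) (fun _ => 1)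
      (Pool.Agent.Run7.h508.BR.wE W) (Pool.Agent.Run7.h508.BR.wE_bound W) hs
    refine h1.congr fun x => ?_
    rw [Pool.Agent.Run7.h508.BR.logTerm_one, mul_one_div]
    rfl
  · intro l r h Λ hΛ h1
    exact ((order_iff (fun s _ => rfl)).mp h).order hΛ h1
  · intro k _ _ W m hΔ hm K₀ _ _ _ hK₀
    exact ⟨fun h ι _ K _ _ _ t ht => relation_of W hΔ hm h K₀ hK₀ ι K t ht,
      fun h0 hv => iff_of W hΔ hm K₀ hK₀ h0 hv⟩
  · intro W m hΔ hm K₀ _ _ hK₀ hQ h0
    have h1 := iff_of W hΔ hm K₀ hK₀ h0 (fun v hv => ⟨ℚ, inferInstance, inferInstance,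
      inferInstance, ?_, fun v' hv' => absurd (Subsingleton.elim v' v) hv', hQ⟩)
    · refine ⟨fun h => h1.mp fun K _ _ alg => ?_, fun h K _ _ => h1.mpr h K⟩
      obtain rfl : alg = DivisionRing.toRatAlgebra := Subsingleton.elim _ _
      exact h K
    · have : Nonempty {χ : ℚ →+* ℂ // ComplexEmbedding.IsReal χ ∧
          χ.comp (algebraMap ℚ ℚ) = v} := ⟨⟨v, hv, Subsingleton.elim _ _⟩⟩
      exact Nat.card_pos

end Pool.Agent.Results.MP_32c55d_nt.UnramifiedExtensions
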